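import Pool.Agent.Q256.FX.Det
import Pool.Agent.Q256.HX.DatH
import Pool.Agent.Q256.HX.StmC
import Pool.Agent.Q175.FX.Hen
import Pool.Agent.Q175.FX.Alg
import Pool.Agent.Q175.FX.Inter
import Pool.Agent.Q175.FX.Conv
import Pool.Agent.Q251.FX.Cls
import Pool.Agent.Q210.FX.Main
import Pool.Agent.Q256.FX.Absd
import Pool.Agent.Q210.FX.Gen
import Pool.Agent.Q6.FX.Coord
import Pool.Agent.Q285.HX.Hbak
import Pool.Agent.Q285.HX.Hht
import Pool.Agent.Q190.HX.Hjac
import Pool.Agent.Q190.HX.Hpf
import Pool.Agent.Q210.HX.Hcurve
import Pool.Agent.Q177.HX.Hrig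
import Pool.Agent.Q296.HX.Hcnt
import Pool.Agent.Q296.HX.Hconj
import Pool.Agent.Q6.HX.Hloc
import Pool.Agent.Q6.HX.Hhc

/-!
# MP_0e6b5f_nt: uniform boundedness for Hénon maps outside few conjugacy classes

For all `d ≥ 2`, `D`, `B`, `ε > 0` there are `N`, `C` such that for every `X ≥ 1` at most `C X ^ ε`
conjugacy classes (of generalized Hénon maps over `ℂ` under the affine maps
`(x, y) ↦ (a x + b, a y + b)`) contain all generalized Hénon maps `f(x, y) = (y, F(y) - δ x)` of degree
`d` over all number fields `K` of degree at most `D`, with `(1 : δ : a_0 : ... : a_d)` of absolute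
height at most `X`, which have more than `N` periodic points `P` with `[K(P) : K] ≤ B` or a point of
degree at most `B` which is not periodic and has absolute canonical height less than `log X / N`.

Proof. (1) Suppose not. Then there are `X_N → ∞` and sets `𝒢_N` of pairwise not conjugate maps, with
`#𝒢_N ^ a > N X_N`, each with a point over a field `L` of degree at most `D B` for which the points
`f^j(P)`, `|j| ≤ N`, are distinct and of height at most `X_N ^ A`, `A` depending only on `d`, `D`, `B`
(the height of a periodic point is bounded by a power of the height of the map, and for the other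
points `h ≤ ĥ⁺ + ĥ⁻ + A log X`). Coordinates with respect to the powers of a generator of small
height give rational vectors.
(2) In an ultraproduct take a generic point of these families whose ideal over the field `k` of
nonstandard rational numbers of polynomially bounded height is as large as possible. Let `L` be the
function field generated by its coordinates. The determinant method modulo a power of a prime shows
that every germ of a function in `L` whose values have height at most `X_N ^ A` has degree at most
`b(A)` over a transcendence basis of `L / k` (`S_absD`).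
(3) So the generic map `f*` over `L` has a two-sided infinite orbit `x_n` of bounded degree
(`x_(n+1) + δ x_(n-1) = F(x_n)`). At each place of `L` the orbit is bounded by an escape argument, so
that it lies in a finite dimensional space over the constants. An infinite orbit is not contained in a
curve, because no polynomial is semi-invariant under a Hénon map. Derivations of the field generated by
a generic point of the orbit show that the Jacobian `δ` is constant: the wedge product of two derived
orbits is multiplied by `δ` in each step. The covering of the filled Julia sets by few discs at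
each place and the product formula show that the orbit is constant up to an affine change of the
coordinate (rigidity). So `f*` is conjugate to a map over the constants, hence two different members
of `𝒢_N` are conjugate over `ℂ`, a contradiction.
-/

set_option autoImplicit false

open Filter Topology

namespace Pool.Agent.Results.MP_0e6b5f_nt.FewExceptionalClasses

/-- The generalized Hénon map `f(x, y) = (y, F(y) - δ x)`. -/
noncomputable def henon {K : Type} [Field K] (F : Polynomial K) (δ : K) (P : K × K) : K × K :=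
  (P.2, F.eval P.2 - δ * P.1)

/-- The inverse map `f⁻¹(x, y) = ((F(x) - y) / δ, x)`. -/
noncomputable def henonInv {K : Type} [Field K] (F : Polynomial K) (δ : K) (P : K × K) : K × K :=
  ((F.eval P.1 - P.2) / δ, P.1)

/-- The point `P` is periodic. -/
def IsPer {K : Type} [Field K] (F : Polynomial K) (δ : K) (P : K × K) : Prop :=
  ∃ n : ℕ, 1 ≤ n ∧ (henon F δ)^[n] P = P

/-- The point of the projective space with coordinates `1`, `δ` and the coefficients of `F`. -/
noncomputable def coeffs {K : Type} [Field K] (d : ℕ) (F : Polynomial K) (δ : K) :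
    Fin (d + 1) ⊕ Fin 2 → K := Sum.elim (fun j => F.coeff j) ![1, δ]

/-- The Hénon maps over `ℂ` given by `(F, δ)` and by `G` are conjugate by an affine map
`(x, y) ↦ (a x + b, a y + b)`. -/
def Conj (F : Polynomial ℂ) (δ : ℂ) (G : Polynomial ℂ × ℂ) : Prop :=
  ∃ a b : ℂ, a ≠ 0 ∧ ∀ P : ℂ × ℂ, henon F δ (a * P.1 + b, a * P.2 + b) =
    (a * (henon G.1 G.2 P).1 + b, a * (henon G.1 G.2 P).2 + b)

open Pool.Agent.Q256.FX (S_absD abs_of_main)
open Pool.Agent.Q256.HX

theorem absD' : S_absD :=
  Pool.Agent.Q256.FX.AD.absD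
    (abs_of_main (Pool.Agent.Q210.FX.main (Pool.Agent.Q251.FX.cls Pool.Agent.Q256.FX.DT.det
      Pool.Agent.Q175.FX.hen) Pool.Agent.Q175.FX.lg))

theorem hbakn' : S_hbakn :=
  Pool.Agent.Q285.HX.hbakn (Pool.Agent.Q285.HX.hbak Pool.Agent.Q190.HX.hpf Pool.Agent.Q6.HX.hloc
    (Pool.Agent.Q210.HX.hcurve Pool.Agent.Q210.HX.hinv) Pool.Agent.Q190.HX.hjac
    Pool.Agent.Q177.HX.hrig) Pool.Agent.Q175.FX.inter Pool.Agent.Q175.FX.conv

theorem hhc' : S_hhc := Pool.Agent.Q6.HX.hhc

section orbit

variable {K : Type} [Field K]

/-- the Hénon map as a permutation of the plane -/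
noncomputable def he (F : Polynomial K) (δ : K) (hδ : δ ≠ 0) : Equiv.Perm (K × K) where
  toFun := henon F δ
  invFun := henonInv F δ
  left_inv := by
    rintro ⟨a, b⟩
    simp only [henon, henonInv]
    rw [sub_sub_cancel, mul_div_cancel_left₀ _ hδ]
  right_inv := by
    rintro ⟨a, b⟩
    simp only [henon, henonInv]
    rw [mul_div_cancel₀ _ hδ, sub_sub_cancel]

/-- the orbit of `P` as a sequence -/
noncomputable def ox (F : Polynomial K) (δ : K) (hδ : δ ≠ 0) (P : K × K) (n : ℤ) : K :=
  ((he F δ hδ ^ n) P).1

theorem ox_pair (F : Polynomial K) (δ : K) (hδ : δ ≠ 0) (P : K × K) (n : ℤ) :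
    (he F δ hδ ^ n) P = (ox F δ hδ P n, ox F δ hδ P (n + 1)) := by
  have h1 : (he F δ hδ ^ (n + 1)) P = henon F δ ((he F δ hδ ^ n) P) := by
    rw [add_comm, zpow_add, zpow_one]
    rfl
  ext
  · rfl
  · unfold ox
    rw [h1]
    rfl

theorem ox_rec (F : Polynomial K) (δ : K) (hδ : δ ≠ 0) (P : K × K) (n : ℤ) :
    ox F δ hδ P (n + 1) + δ * ox F δ hδ P (n - 1) = F.eval (ox F δ hδ P n) := by
  have h1 : (he F δ hδ ^ (n - 1 + 1)) P = henon F δ ((he F δ hδ ^ (n - 1)) P) := by
    rw [add_comm, zpow_add, zpow_one]
    rfl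
  rw [ox_pair, ox_pair, sub_add_cancel] at h1
  have h2 : ox F δ hδ P (n + 1) = F.eval (ox F δ hδ P n) - δ * ox F δ hδ P (n - 1) :=
    (Prod.ext_iff.1 h1).2
  rw [h2]
  ring

theorem he_nat (F : Polynomial K) (δ : K) (hδ : δ ≠ 0) (P : K × K) (n : ℕ) :
    (he F δ hδ ^ (n : ℤ)) P = (henon F δ)^[n] P := by
  rw [zpow_natCast, Equiv.Perm.coe_pow]
  rfl

theorem he_neg (F : Polynomial K) (δ : K) (hδ : δ ≠ 0) (P : K × K) (n : ℕ) :
    (he F δ hδ ^ (-(n : ℤ))) P = (henonInv F δ)^[n] P := by
  rw [zpow_neg, zpow_natCast, ← inv_pow, Equiv.Perm.coe_pow]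
  rfl

/-- two equal points of the orbit: the point is periodic -/
theorem per_of_eq (F : Polynomial K) (δ : K) (hδ : δ ≠ 0) (P : K × K) {N : ℕ} {i j : ℤ}
    (hi : i.natAbs ≤ N) (hj : j.natAbs ≤ N) (hij : i ≠ j)
    (h : ox F δ hδ P i = ox F δ hδ P j ∧ ox F δ hδ P (i + 1) = ox F δ hδ P (j + 1)) :
    ∃ m : ℕ, 1 ≤ m ∧ m ≤ 2 * N ∧ (henon F δ)^[m] P = P := by
  wlog hlt : i < j generalizing i j
  · exact this hj hi hij.symm ⟨h.1.symm, h.2.symm⟩ (by omega)
  have h1 : (he F δ hδ ^ i) P = (he F δ hδ ^ j) P := by
    rw [ox_pair, ox_pair, h.1, h.2]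
  refine ⟨(j - i).natAbs, by omega, by omega, ?_⟩
  rw [← he_nat F δ hδ]
  have h2 : (((j - i).natAbs : ℕ) : ℤ) = -i + j := by omega
  rw [h2, zpow_add, Equiv.Perm.mul_apply, ← h1, ← Equiv.Perm.mul_apply, ← zpow_add]
  simp

/-- the orbit of a periodic point is periodic -/
theorem ox_per (F : Polynomial K) (δ : K) (hδ : δ ≠ 0) (P : K × K) (m : ℕ) (hm : 1 ≤ m)
    (h : (henon F δ)^[m] P = P) :
    ∃ m : ℤ, m ≠ 0 ∧ ∀ n, ox F δ hδ P (n + m) = ox F δ hδ P n := by
  refine ⟨m, by omega, fun n => ?_⟩
  unfold ox
  rw [zpow_add, Equiv.Perm.mul_apply, he_nat, h]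

end orbit

section heights

variable {K L : Type} [Field K] [NumberField K] [Field L] [NumberField L] [Algebra K L]

theorem ht_ext (a : K) : Height.mulHeight₁ (algebraMap K L a) =
    Height.mulHeight₁ a ^ Module.finrank K L := by
  rw [Height.mulHeight₁_eq_mulHeight, Height.mulHeight₁_eq_mulHeight]
  have h := Pool.Agent.Helper259.HtExt.mulHeight_ext (K := K) (L := L) ![a, 1]
  have e : (fun i => algebraMap K L ((![a, 1] : Fin 2 → K) i)) = ![algebraMap K L a, 1] := by
    funext i
    fin_cases i <;> simp
  rw [e] at h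
  exact h

end heights

section limits

theorem lim_shift {d : ℝ} (hd : 0 < d) (G : ℕ → ℝ) (h h' : ℝ) (m : ℕ)
    (t : Tendsto (fun j : ℕ => G j / d ^ j) atTop (𝓝 h))
    (t' : Tendsto (fun j : ℕ => G (m + j) / d ^ j) atTop (𝓝 h')) : h' = d ^ m * h := by
  refine tendsto_nhds_unique t' ?_
  have h1 := (t.comp (tendsto_add_atTop_nat m)).const_mul (d ^ m)
  refine h1.congr fun j => ?_
  simp only [Function.comp]
  rw [add_comm m j, pow_add]
  field_simp

theorem lim_le {d : ℝ} (hd : 1 ≤ d) (H : ℤ → ℝ) (hH : ∀ n, 0 ≤ H n) (hp hm : ℝ)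
    (tp : Tendsto (fun j : ℕ => H j / d ^ j) atTop (𝓝 hp))
    (tm : Tendsto (fun j : ℕ => H (-j) / d ^ j) atTop (𝓝 hm)) (n : ℤ) (N : ℕ) (hn : n.natAbs ≤ N)
    (hp' hm' : ℝ) (tp' : Tendsto (fun j : ℕ => H (n + j) / d ^ j) atTop (𝓝 hp'))
    (tm' : Tendsto (fun j : ℕ => H (n - j) / d ^ j) atTop (𝓝 hm')) :
    hp' + hm' ≤ d ^ N * (hp + hm) := by
  have hd0 : 0 < d := by linarith
  have hp0 : 0 ≤ hp := ge_of_tendsto' tp fun j => div_nonneg (hH _) (by positivity)
  have hm0 : 0 ≤ hm := ge_of_tendsto' tm fun j => div_nonneg (hH _) (by positivity)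
  have hp0' : 0 ≤ hp' := ge_of_tendsto' tp' fun j => div_nonneg (hH _) (by positivity)
  have hm0' : 0 ≤ hm' := ge_of_tendsto' tm' fun j => div_nonneg (hH _) (by positivity)
  have hN1 : 1 ≤ d ^ N := one_le_pow₀ hd
  obtain ⟨m, rfl | rfl⟩ := Int.eq_nat_or_neg n
  · have hm1 : m ≤ N := by simpa using hn
    have h1 : hp' = d ^ m * hp := by
      refine lim_shift hd0 (fun j : ℕ => H j) hp hp' m tp ?_
      refine tp'.congr fun j => ?_
      push_cast
      rfl
    have h2 : hm = d ^ m * hm' := by
      refine lim_shift hd0 (fun j : ℕ => H (m - j)) hm' hm m tm' ?_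
      refine tm.congr fun j => ?_
      have e : ((m : ℤ) - ((m + j : ℕ) : ℤ)) = -(j : ℤ) := by push_cast; ring
      rw [e]
    have h3 : d ^ m ≤ d ^ N := pow_le_pow_right₀ hd hm1
    have h4 : 1 ≤ d ^ m := one_le_pow₀ hd
    have h5 : hm' ≤ hm := by
      rw [h2]
      exact le_mul_of_one_le_left hm0' h4
    rw [h1]
    nlinarith
  · have hm1 : m ≤ N := by simpa using hn
    have h1 : hm' = d ^ m * hm := by
      refine lim_shift hd0 (fun j : ℕ => H (-j)) hm hm' m tm ?_
      refine tm'.congr fun j => ?_
      have e : (-(m : ℤ) - (j : ℤ)) = -((m + j : ℕ) : ℤ) := by push_cast; ring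
      rw [e]
    have h2 : hp = d ^ m * hp' := by
      refine lim_shift hd0 (fun j : ℕ => H (-m + j)) hp' hp m tp' ?_
      refine tp.congr fun j => ?_
      have e : (-(m : ℤ) + ((m + j : ℕ) : ℤ)) = (j : ℤ) := by push_cast; ring
      rw [e]
    have h3 : d ^ m ≤ d ^ N := pow_le_pow_right₀ hd hm1
    have h4 : 1 ≤ d ^ m := one_le_pow₀ hd
    have h5 : hp' ≤ hp := by
      rw [h2]
      exact le_mul_of_one_le_left hp0' h4
    rw [h1]
    nlinarith

end limits

theorem conj_of {F : Polynomial ℂ} {δ : ℂ} {G : Polynomial ℂ × ℂ} (h : CJH (F, δ) G) :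
    Conj F δ G := by
  obtain ⟨h1, a, b, ha, h⟩ := h
  refine ⟨a, b, ha, fun P => ?_⟩
  have h2 : δ = G.2 := h1
  ext
  · rfl
  · show F.eval (a * P.2 + b) - δ * (a * P.1 + b) = a * (G.1.eval P.2 - G.2 * P.1) + b
    have h3 : F.eval (a * P.2 + b) = a * G.1.eval P.2 + (1 + δ) * b := h P.2
    rw [h3, ← h2]
    ring

/-- **Few exceptional conjugacy classes of Hénon maps.** For all `d ≥ 2`, `D`, `B` and `ε > 0` there
are `N` and `C` such that for every `X ≥ 1` there are at most `C X ^ ε` pairs `G` such that for every
number field `K` of degree at most `D` and every generalized Hénon map `f(x, y) = (y, F(y) - δ x)` of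
degree `d` over `K`, whose coefficient vector has absolute height at most `X`, either the images of `f`
under all embeddings of `K` in `ℂ` are conjugate over `ℂ` to the map given by some of the `G`, or `f` has
at most `N` periodic points `P` over the algebraic closure with `[K(P) : K] ≤ B`, while, for every
extension `L` of `K` of degree at most `B`, the canonical height (the limit of
`(log H(f^n(P)) + log H(f^(-n)(P))) / d ^ n`, `H` the absolute height) of every other point `P` of the
plane over `L` is at least `log X / N`. -/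
theorem result (d D B : ℕ) (hd : 2 ≤ d) (ε : ℝ) (hε : 0 < ε) :
    ∃ (N : ℕ) (C : ℝ), ∀ X : ℝ, 1 ≤ X →
      ∃ 𝒢 : Finset (Polynomial ℂ × ℂ), (𝒢.card : ℝ) ≤ C * X ^ ε ∧
        ∀ (K : Type) [Field K] [NumberField K], Module.finrank ℚ K ≤ D →
        ∀ (F : Polynomial K) (δ : K), F.natDegree = d → δ ≠ 0 →
          Height.mulHeight (coeffs d F δ) ≤ X ^ Module.finrank ℚ K →
          (∀ σ : K →+* ℂ, ∃ G ∈ 𝒢, Conj (F.map σ) (σ δ) G) ∨
          ((∀ S : Finset (AlgebraicClosure K × AlgebraicClosure K),
            (∀ P ∈ S, IsPer (F.map (algebraMap K (AlgebraicClosure K)))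
                (algebraMap K (AlgebraicClosure K) δ) P ∧
              Module.finrank K (IntermediateField.adjoin K {P.1, P.2}) ≤ B) → S.card ≤ N) ∧
          ∀ (L : Type) [Field L] [NumberField L] [Algebra K L], Module.finrank K L ≤ B →
            ∀ P : L × L, ¬ IsPer (F.map (algebraMap K L)) (algebraMap K L δ) P →
            ∃ h : ℝ, Real.log X ≤ N * h ∧ Tendsto (fun n : ℕ =>
              (Real.log (Height.mulHeight
                ![1, ((henon (F.map (algebraMap K L)) (algebraMap K L δ))^[n] P).1,
                  ((henon (F.map (algebraMap K L)) (algebraMap K L δ))^[n] P).2]) +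
              Real.log (Height.mulHeight
                ![1, ((henonInv (F.map (algebraMap K L)) (algebraMap K L δ))^[n] P).1,
                  ((henonInv (F.map (algebraMap K L)) (algebraMap K L δ))^[n] P).2])) /
              (Module.finrank ℚ L * (d : ℝ) ^ n)) atTop (𝓝 h)) := by
  classical
  set E : ℕ := D * B with hEdef
  obtain ⟨a, ha⟩ := exists_nat_gt (E / ε)
  have ha1 : 1 ≤ a := by
    have : (0 : ℝ) < a := lt_of_le_of_lt (by positivity) ha
    exact_mod_cast this
  obtain ⟨A1, hA1⟩ := Pool.Agent.Q285.HX.Ht.hht d E hd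
  obtain ⟨Ac, hAc⟩ := hhc' d E hd
  set Am : ℕ := max A1 (Ac + 1) with hAm
  obtain ⟨A, hA⟩ := exists_hdt Pool.Agent.Q6.FX.coord Pool.Agent.Q210.FX.gen d E Am
  obtain ⟨N₀, hN₀, hfew⟩ := fewH absD' Pool.Agent.Q175.FX.alg' hbakn' Pool.Agent.Q296.HX.hconj
    d hd E A a ha1
  obtain ⟨B₀, hB₀⟩ := Pool.Agent.Q296.HX.hcnt d (2 * N₀) hd
  refine ⟨max B₀ (d ^ N₀ * E), 2 * N₀, fun X hX => ?_⟩
  set X' : ℕ := max 2 ⌈X ^ E⌉₊ with hX'
  have hX'2 : 2 ≤ X' := le_max_left _ _
  have hXD : X ^ E ≤ X' := (Nat.le_ceil _).trans (by exact_mod_cast le_max_right _ _)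
  have hXD1 : 1 ≤ X ^ E := one_le_pow₀ hX
  have hX'le : (X' : ℝ) ≤ 2 * X ^ E := by
    have h1 : (⌈X ^ E⌉₊ : ℝ) ≤ X ^ E + 1 := (Nat.ceil_lt_add_one (by positivity)).le
    rw [hX']
    push_cast
    refine max_le (by linarith) (by linarith)
  obtain ⟨𝒢, h2, h3⟩ := hfew X' hX'2
  refine ⟨𝒢, ?_, ?_⟩
  · have hN1 : (1 : ℝ) ≤ N₀ := by exact_mod_cast hN₀
    have h4 : ((𝒢.card : ℝ)) ^ a ≤ (2 * N₀ * X ^ ε) ^ a := by
      calc ((𝒢.card : ℝ)) ^ a ≤ N₀ * X' := by exact_mod_cast h2
        _ ≤ N₀ * (2 * X ^ E) := by gcongr
        _ = (2 * N₀) * X ^ E := by ring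
        _ ≤ (2 * N₀ : ℝ) ^ a * (X ^ ε) ^ a := by
          gcongr
          · exact le_self_pow₀ (by linarith) (by omega)
          · rw [← Real.rpow_natCast X E, ← Real.rpow_natCast (X ^ ε) a,
              ← Real.rpow_mul (by positivity)]
            apply Real.rpow_le_rpow_of_exponent_le hX
            rw [div_lt_iff₀ hε] at ha
            linarith
        _ = _ := (mul_pow _ _ _).symm
    exact le_of_pow_le_pow_left₀ (by omega) (by positivity) h4
  · intro K _ _ hK F δ hF hδ hFX
    -- heights over an extension
    have hXK : (1 : ℝ) ≤ X' := by exact_mod_cast (by omega : 1 ≤ X')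
    have hcoef : ∀ (L : Type) [Field L] [NumberField L] [Algebra K L], Module.finrank K L ≤ B →
        ∀ c : K, Height.mulHeight₁ c ≤ Height.mulHeight (coeffs d F δ) →
          Height.mulHeight₁ (algebraMap K L c) ≤ X' := by
      intro L _ _ _ hL c hc
      rw [ht_ext]
      calc Height.mulHeight₁ c ^ Module.finrank K L ≤
            (X ^ Module.finrank ℚ K) ^ Module.finrank K L :=
            pow_le_pow_left₀ (Height.mulHeight₁_nonneg _) (hc.trans hFX) _
        _ = X ^ (Module.finrank ℚ K * Module.finrank K L) := by rw [pow_mul]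
        _ ≤ X ^ E := pow_le_pow_right₀ hX (Nat.mul_le_mul hK hL)
        _ ≤ X' := hXD
    have hcj : ∀ j, Height.mulHeight₁ (F.coeff j) ≤ Height.mulHeight (coeffs d F δ) := by
      intro j
      by_cases hj : j < d + 1
      · rw [Height.mulHeight₁_eq_mulHeight]
        have e2 : ![F.coeff j, 1] = coeffs d F δ ∘ ![.inl ⟨j, hj⟩, .inr 0] := by
          funext i
          fin_cases i <;> rfl
        rw [e2]
        exact Height.mulHeight_comp_le _ _
      · rw [Polynomial.coeff_eq_zero_of_natDegree_lt (by omega), Height.mulHeight₁_zero]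
        exact Height.one_le_mulHeight _
    have hcδ : Height.mulHeight₁ δ ≤ Height.mulHeight (coeffs d F δ) := by
      rw [Height.mulHeight₁_eq_mulHeight]
      have e2 : ![δ, 1] = coeffs d F δ ∘ ![.inr 1, .inr 0] := by
        funext i
        fin_cases i <;> rfl
      rw [e2]
      exact Height.mulHeight_comp_le _ _
    have hdegL : ∀ (L : Type) [Field L] [Algebra K L], (F.map (algebraMap K L)).natDegree = d := by
      intro L _ _
      rw [Polynomial.natDegree_map_eq_of_injective (algebraMap K L).injective]
      exact hF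
    have hδL : ∀ (L : Type) [Field L] [Algebra K L], algebraMap K L δ ≠ 0 := by
      intro L _ _
      exact (map_ne_zero _).2 hδ
    have hfinL : ∀ (L : Type) [Field L] [NumberField L] [Algebra K L], Module.finrank K L ≤ B →
        Module.finrank ℚ L ≤ E := by
      intro L _ _ _ hL
      rw [← Module.finrank_mul_finrank ℚ K L]
      exact Nat.mul_le_mul hK hL
    by_cases hE : ∃ (L : Type) (_ : Field L) (_ : NumberField L) (_ : Algebra K L) (P : L × L),
        Module.finrank K L ≤ B ∧
        (∀ n : ℤ, n.natAbs ≤ N₀ → Height.mulHeight₁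
          (ox (F.map (algebraMap K L)) (algebraMap K L δ) (hδL L) P n) ≤ (X' : ℝ) ^ Am) ∧
        ∀ i j : ℤ, i.natAbs ≤ N₀ → j.natAbs ≤ N₀ → i ≠ j →
          ¬ (ox (F.map (algebraMap K L)) (algebraMap K L δ) (hδL L) P i =
            ox (F.map (algebraMap K L)) (algebraMap K L δ) (hδL L) P j ∧
            ox (F.map (algebraMap K L)) (algebraMap K L δ) (hδL L) P (i + 1) =
            ox (F.map (algebraMap K L)) (algebraMap K L δ) (hδL L) P (j + 1))
    · left
      intro σ
      obtain ⟨L, _, _, _, P, hL, hH, hdist⟩ := hE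
      have hfin : FiniteDimensional K L := Module.Finite.of_restrictScalars_finite ℚ K L
      obtain ⟨σ', hσ'⟩ : ∃ σ' : L →+* ℂ, σ'.comp (algebraMap K L) = σ := by
        let _ : Algebra K ℂ := σ.toAlgebra
        have : Algebra.IsAlgebraic K L := Algebra.IsAlgebraic.of_finite K L
        refine ⟨(IsAlgClosed.lift : L →ₐ[K] ℂ).toRingHom, ?_⟩
        ext x
        exact AlgHom.commutes (IsAlgClosed.lift : L →ₐ[K] ℂ) x
      obtain ⟨r, θ, hdt⟩ := hA L (hfinL L hL) X' hX'2 N₀ hN₀ _ _ (hdegL L) (hδL L)
        (by
          intro j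
          rw [Polynomial.coeff_map]
          exact hcoef L hL _ (hcj j)) (hcoef L hL _ hcδ) _ (ox_rec _ _ (hδL L) P) hH hdist σ'
      obtain ⟨G, hG, hc⟩ := h3 _ ⟨r, θ, _, hdt⟩
      refine ⟨G, hG, ?_⟩
      rw [Polynomial.map_map, ← RingHom.comp_apply, hσ'] at hc
      exact conj_of hc
    · right
      push Not at hE
      refine ⟨?_, ?_⟩
      · -- periodic points
        intro S hS
        refine le_trans ?_ (le_max_left _ _)
        refine hB₀ (AlgebraicClosure K) _ _ (hdegL _) (hδL _) S fun P hP => ?_
        obtain ⟨⟨m, hm, hper⟩, hfr⟩ := hS P hP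
        set L := IntermediateField.adjoin K {P.1, P.2} with hL
        have hfd : FiniteDimensional K L := by
          have : Finite ({P.1, P.2} : Set (AlgebraicClosure K)) :=
            (Set.toFinite _).to_subtype
          exact IntermediateField.finiteDimensional_adjoin fun x _ =>
            Algebra.IsIntegral.isIntegral x
        have : NumberField L := NumberField.of_module_finite K L
        set Q : L × L := (⟨P.1, IntermediateField.subset_adjoin _ _ (by simp)⟩,
          ⟨P.2, IntermediateField.subset_adjoin _ _ (by simp)⟩) with hQ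
        -- iterates over `L` and over the closure
        have hmapit : ∀ (n : ℕ) (R : L × L),
            (henon (F.map (algebraMap K (AlgebraicClosure K)))
              (algebraMap K (AlgebraicClosure K) δ))^[n] ((R.1 : AlgebraicClosure K), (R.2 : AlgebraicClosure K)) =
            ((((henon (F.map (algebraMap K L)) (algebraMap K L δ))^[n] R).1 : AlgebraicClosure K),
            (((henon (F.map (algebraMap K L)) (algebraMap K L δ))^[n] R).2 : AlgebraicClosure K)) := by
          intro n
          induction n with
          | zero => intro R; rfl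
          | succ n ih =>
            intro R
            rw [Function.iterate_succ_apply, Function.iterate_succ_apply, ← ih]
            congr 1
            ext
            · rfl
            · simp only [henon]
              push_cast
              have e1 : (Polynomial.map (algebraMap K (AlgebraicClosure K)) F) =
                  (F.map (algebraMap K L)).map (algebraMap L (AlgebraicClosure K)) := by
                rw [Polynomial.map_map]
                rfl
              have e2 : (Polynomial.map (algebraMap K (AlgebraicClosure K)) F).eval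
                  ((R.2 : L) : AlgebraicClosure K) =
                  (((F.map (algebraMap K L)).eval R.2 : L) : AlgebraicClosure K) := by
                rw [e1]
                exact Polynomial.eval_map_apply (algebraMap L (AlgebraicClosure K)) R.2
              rw [e2]
        have hperQ : (henon (F.map (algebraMap K L)) (algebraMap K L δ))^[m] Q = Q := by
          have h5 := hmapit m Q
          have h6 : (((Q.1 : L) : AlgebraicClosure K), ((Q.2 : L) : AlgebraicClosure K)) = P := rfl
          rw [h6] at h5
          have h7 : (henon (F.map (algebraMap K (AlgebraicClosure K)))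
              (algebraMap K (AlgebraicClosure K) δ))^[m] P = P := hper
          rw [h7] at h5
          ext
          · exact (congrArg Prod.fst h5).symm
          · exact (congrArg Prod.snd h5).symm
        have hht := hA1 L (hfinL L hfr) X' hX'2 _ _ (hdegL L) (hδL L)
          (by
            intro j
            rw [Polynomial.coeff_map]
            exact hcoef L hfr _ (hcj j)) (hcoef L hfr _ hcδ) _ (ox_rec _ _ (hδL L) Q)
          (ox_per _ _ (hδL L) Q m hm hperQ)
        obtain ⟨i, j, hi, hj, hij, heq⟩ := hE L _ _ _ Q hfr (fun n _ =>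
          (hht n).trans (pow_le_pow_right₀ hXK (le_max_left _ _)))
        obtain ⟨m', hm'1, hm'2, hm'3⟩ := per_of_eq _ _ (hδL L) Q hi hj hij heq
        refine ⟨m', hm'1, hm'2, ?_⟩
        have h5 := hmapit m' Q
        rw [hm'3] at h5
        exact h5
      · -- the canonical height
        intro L _ _ _ hL P hP
        set FL := F.map (algebraMap K L) with hFL
        set δL := algebraMap K L δ with hδLdef
        set x := ox FL δL (hδL L) P with hxdef
        have hFLX : ∀ j, Height.mulHeight₁ (FL.coeff j) ≤ X' := by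
          intro j
          rw [hFL, Polynomial.coeff_map]
          exact hcoef L hL _ (hcj j)
        have hδLX : Height.mulHeight₁ δL ≤ X' := hcoef L hL _ hcδ
        have hxrec : ∀ n, x (n + 1) + δL * x (n - 1) = FL.eval (x n) := ox_rec FL δL (hδL L) P
        have hdL1 : 1 ≤ Module.finrank ℚ L := Module.finrank_pos
        have hE1 : 1 ≤ E := hdL1.trans (hfinL L hL)
        obtain ⟨hp, hm, tp, tm, -⟩ := hAc L (hfinL L hL) X' hX'2 FL δL (hdegL L) (hδL L) hFLX
          hδLX x hxrec
        set H : ℤ → ℝ := fun n => Real.log (Height.mulHeight ![1, x n, x (n + 1)]) with hH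
        have hH0 : ∀ n, 0 ≤ H n := fun n => Real.log_nonneg (Height.one_le_mulHeight _)
        -- a large height
        obtain ⟨n, hn, hbig⟩ : ∃ n : ℤ, n.natAbs ≤ N₀ ∧
            (X' : ℝ) ^ Am < Height.mulHeight₁ (x n) := by
          by_contra hcon
          push Not at hcon
          obtain ⟨i, j, hi, hj, hij, heq⟩ := hE L _ _ _ P hL hcon
          obtain ⟨m', hm'1, hm'2, hm'3⟩ := per_of_eq _ _ (hδL L) P hi hj hij heq
          exact hP ⟨m', hm'1, hm'3⟩
        have hd1 : (1 : ℝ) ≤ d := by exact_mod_cast (by omega : 1 ≤ d)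
        obtain ⟨hp', hm', tp', tm', hle⟩ := hAc L (hfinL L hL) X' hX'2 FL δL (hdegL L) (hδL L)
          hFLX hδLX (fun j => x (n + j)) (by
            intro j
            have := hxrec (n + j)
            rw [add_assoc, add_sub_assoc] at this
            exact this)
        have hlim : hp' + hm' ≤ (d : ℝ) ^ N₀ * (hp + hm) := by
          refine lim_le hd1 H hH0 hp hm tp tm n N₀ hn hp' hm' ?_ ?_
          · refine tp'.congr fun j => ?_
            simp only [hH]
            rw [add_assoc]
          · refine tm'.congr fun j => ?_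
            simp only [hH]
            rw [sub_eq_add_neg, add_assoc]
        have hlogX' : 0 < Real.log X' := Real.log_pos (by exact_mod_cast (by omega : 1 < X'))
        have hlogX : Real.log X ≤ Real.log X' := by
          refine Real.log_le_log (by linarith) ?_
          refine le_trans ?_ hXD
          exact le_self_pow₀ hX (by omega)
        have hlog1 : (Ac + 1 : ℝ) * Real.log X' ≤
            Real.log (Height.mulHeight ![1, x (n + 0), x (n + 1)]) := by
          have h5 : (X' : ℝ) ^ (Ac + 1) ≤ Height.mulHeight ![1, x (n + 0), x (n + 1)] := by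
            calc (X' : ℝ) ^ (Ac + 1) ≤ (X' : ℝ) ^ Am :=
                  pow_le_pow_right₀ hXK (le_max_right _ _)
              _ ≤ Height.mulHeight₁ (x n) := hbig.le
              _ ≤ _ := by
                rw [Height.mulHeight₁_eq_mulHeight, add_zero]
                have e2 : ![x n, 1] = ![1, x n, x (n + 1)] ∘ ![1, 0] := by
                  funext i
                  fin_cases i <;> rfl
                rw [e2]
                exact Height.mulHeight_comp_le _ _
          have h6 := Real.log_le_log (by positivity) h5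
          rw [Real.log_pow] at h6
          push_cast at h6
          exact h6
        have hfinal : Real.log X' ≤ (d : ℝ) ^ N₀ * (hp + hm) := by
          have h5 : Real.log (Height.mulHeight ![1, x (n + 0), x (n + 1)]) ≤
            hp' + hm' + Ac * Real.log X' := hle
          nlinarith
        have hLQ : (0 : ℝ) < Module.finrank ℚ L := by exact_mod_cast (by omega : 0 < Module.finrank ℚ L)
        refine ⟨(hp + hm) / Module.finrank ℚ L, ?_, ?_⟩
        · have h5 : 0 ≤ (hp + hm) / Module.finrank ℚ L := by
            have h6 : 0 ≤ hp := ge_of_tendsto' tp fun j => div_nonneg (hH0 _) (by positivity)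
            have h7 : 0 ≤ hm := ge_of_tendsto' tm fun j => div_nonneg (hH0 _) (by positivity)
            positivity
          have h8 : ((d ^ N₀ * E : ℕ) : ℝ) ≤ ((max B₀ (d ^ N₀ * E) : ℕ) : ℝ) := by
            exact_mod_cast le_max_right _ _
          have h9 : (Module.finrank ℚ L : ℝ) ≤ E := by exact_mod_cast hfinL L hL
          calc Real.log X ≤ Real.log X' := hlogX
            _ ≤ (d : ℝ) ^ N₀ * (hp + hm) := hfinal
            _ = (d : ℝ) ^ N₀ * (Module.finrank ℚ L) * ((hp + hm) / Module.finrank ℚ L) := by
              field_simp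
            _ ≤ (d : ℝ) ^ N₀ * E * ((hp + hm) / Module.finrank ℚ L) := by gcongr
            _ = ((d ^ N₀ * E : ℕ) : ℝ) * ((hp + hm) / Module.finrank ℚ L) := by push_cast; ring
            _ ≤ _ := mul_le_mul_of_nonneg_right h8 h5
        · have h5 := (tp.add tm).div_const (Module.finrank ℚ L : ℝ)
          refine h5.congr fun j => ?_
          rw [← he_nat FL δL (hδL L) P j, ← he_neg FL δL (hδL L) P j, ox_pair, ox_pair]
          simp only
          rw [← add_div, div_div]
          congr 1
          ring

end Pool.Agent.Results.MP_0e6b5f_nt.FewExceptionalClasses
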