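import Pool.Agent.Q280.Hen.Basic

/-!
# Hénon maps of degree `d` with at least `d ^ 2 + 4 d` rational periodic points

For every `d ≥ 2` there is a polynomial `F ∈ ℚ[y]` of degree `d` such that the area preserving
generalized Hénon map `f(x, y) = (y, F(y) - x)` has at least `(d + 2) ^ 2 - 4` (`d` even) or
`(d + 2) ^ 2 - 2` (`d` odd) periodic points with integral coordinates in `[0, d + 1]`.

Proof.  Let `M = d + 1` and let `p = 1` if `d` is even and `p = 0` if `d` is odd. There is a
polynomial `F` of degree `d` with `F(y) = M` at the `d` integers `y` of `[0, M]` different from `p` and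
`M - p`, and with `F(p) = M + 1`, `F(M - p) = M + (-1) ^ d`. If `F` were equal to `M` everywhere, `f`
would be a rotation of order four of the square `[0, M] ^ 2`. The map `f` sends the square without
the points `(1, 0)`, `(0, 1)`, `(M - 1, 0)`, `(0, M - 1)` (for odd `d`: without `(0, 0)`, `(M, M)`)
to itself, and an injective self-map of a finite set is a permutation.
-/

set_option autoImplicit false

open Polynomial Pool.Agent.Q280.Hen

namespace Pool.Agent.Results.MP_0e6b5f_nt.ManyPeriodicPoints

universe u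

/-- The product of `X - z` over the integers `z ∈ [0, M]` other than `p` and `M - p`. -/
noncomputable def zp (M p : ℕ) : ℚ[X] :=
  ∏ z ∈ (Finset.range (M + 1)).filter (fun z => z ≠ p ∧ z ≠ M - p), (X - C (z : ℚ))

lemma zp_natDegree (M p : ℕ) (h : 2 * p < M) : (zp M p).natDegree = M - 1 := by
  rw [zp, natDegree_prod_of_monic _ _ (fun i _ => monic_X_sub_C _),
    Finset.sum_congr rfl (fun i _ => natDegree_X_sub_C _)]
  rw [Finset.sum_const, smul_eq_mul, mul_one]
  have e : (Finset.range (M + 1)).filter (fun z => z ≠ p ∧ z ≠ M - p) =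
      ((Finset.range (M + 1)).erase p).erase (M - p) := by
    ext z
    simp only [Finset.mem_filter, Finset.mem_erase]
    tauto
  rw [e, Finset.card_erase_of_mem, Finset.card_erase_of_mem, Finset.card_range]
  · omega
  · simp only [Finset.mem_range]
    omega
  · simp only [Finset.mem_erase, Finset.mem_range]
    omega

lemma zp_zero (M p i : ℕ) (h1 : i ≤ M) (h2 : i ≠ p) (h3 : i ≠ M - p) :
    (zp M p).eval ((i : ℕ) : ℚ) = 0 := by
  rw [zp, eval_prod]
  apply Finset.prod_eq_zero (i := i)
  · simp only [Finset.mem_filter, Finset.mem_range]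
    omega
  · simp

lemma zp_ne (M p : ℕ) : (zp M p).eval (p : ℚ) ≠ 0 := by
  rw [zp, eval_prod, Finset.prod_ne_zero_iff]
  intro z hz
  simp only [Finset.mem_filter] at hz
  simp only [eval_sub, eval_X, eval_C, sub_ne_zero]
  intro h
  exact hz.2.1 (by exact_mod_cast h.symm)

lemma zp_symm (M p : ℕ) (h : 2 * p < M) :
    (zp M p).eval ((M - p : ℕ) : ℚ) = (-1) ^ (M - 1) * (zp M p).eval (p : ℚ) := by
  have hdeg := zp_natDegree M p h
  have hcard : ((Finset.range (M + 1)).filter (fun z => z ≠ p ∧ z ≠ M - p)).card = M - 1 := by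
    rw [zp, natDegree_prod_of_monic _ _ (fun i _ => monic_X_sub_C _),
      Finset.sum_congr rfl (fun i _ => natDegree_X_sub_C _)] at hdeg
    simpa using hdeg
  rw [zp, eval_prod, eval_prod, ← hcard, ← Finset.prod_const, ← Finset.prod_mul_distrib]
  refine Finset.prod_bij' (fun z _ => M - z) (fun z _ => M - z) ?_ ?_ ?_ ?_ ?_
  · intro z hz
    simp only [Finset.mem_filter, Finset.mem_range] at hz ⊢
    omega
  · intro z hz
    simp only [Finset.mem_filter, Finset.mem_range] at hz ⊢
    omega
  · intro z hz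
    simp only [Finset.mem_filter, Finset.mem_range] at hz
    omega
  · intro z hz
    simp only [Finset.mem_filter, Finset.mem_range] at hz
    omega
  · intro z hz
    simp only [Finset.mem_filter, Finset.mem_range] at hz
    have h1 : ((M - p : ℕ) : ℚ) = (M : ℚ) - p := by
      rw [Nat.cast_sub (by omega)]
    have h2 : ((M - z : ℕ) : ℚ) = (M : ℚ) - z := by
      rw [Nat.cast_sub (by omega)]
    simp only [eval_sub, eval_X, eval_C, h1, h2]
    ring

/-- The prescribed values. -/
def sv (M p : ℕ) (y : ℤ) : ℤ :=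
  if y = p then M + 1 else if y = M - p then M + (-1) ^ (M - 1) else M

lemma exists_poly (M p : ℕ) (h : 2 * p < M) (hM : 2 ≤ M) :
    ∃ F : ℚ[X], F.natDegree = M - 1 ∧
      ∀ i : ℤ, 0 ≤ i → i < (M : ℤ) + 1 → F.eval (i : ℚ) = (sv M p i : ℚ) := by
  set c : ℚ := ((zp M p).eval (p : ℚ))⁻¹ with hc
  have hc0 : c ≠ 0 := inv_ne_zero (zp_ne M p)
  refine ⟨C (M : ℚ) + C c * zp M p, ?_, ?_⟩
  · have h1 : (C c * zp M p).natDegree = M - 1 := by
      rw [natDegree_C_mul hc0, zp_natDegree M p h]
    have h2 : (C (M : ℚ)).natDegree < (C c * zp M p).natDegree := by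
      rw [natDegree_C, h1]
      omega
    rw [natDegree_add_eq_right_of_natDegree_lt h2, h1]
  · intro i hi0 hiM
    obtain ⟨n, rfl⟩ := Int.eq_ofNat_of_zero_le hi0
    have hn : n ≤ M := by omega
    rw [eval_add, eval_mul, eval_C, eval_C]
    simp only [sv]
    by_cases h1 : n = p
    · subst h1
      simp only [if_true]
      push_cast
      rw [hc, inv_mul_cancel₀ (zp_ne M n)]
    · have h1' : ((n : ℕ) : ℤ) ≠ (p : ℤ) := by exact_mod_cast h1
      rw [if_neg h1']
      by_cases h2 : n = M - p
      · have h2' : ((n : ℕ) : ℤ) = (M : ℤ) - p := by omega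
        rw [if_pos h2', h2]
        have h3 := zp_symm M p h
        have h4 : (((M - p : ℕ) : ℤ) : ℚ) = ((M - p : ℕ) : ℚ) := by norm_cast
        rw [h4, h3, hc]
        push_cast
        have h5 := zp_ne M p
        field_simp
      · have h2' : ¬ ((n : ℕ) : ℤ) = (M : ℤ) - p := by omega
        rw [if_neg h2']
        have h3 := zp_zero M p n hn h1 h2
        have h4 : (((n : ℕ) : ℤ) : ℚ) = ((n : ℕ) : ℚ) := by norm_cast
        rw [h4, h3]
        push_cast
        ring

/-- A finite set which is mapped into itself by `g s` consists of periodic points. -/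
lemma periodic_of_invariant (s : ℤ → ℤ) (T : Finset (ℤ × ℤ)) (hT : ∀ P ∈ T, g s P ∈ T)
    (P : ℤ × ℤ) (hP : P ∈ T) : ∃ n, 0 < n ∧ (g s)^[n] P = P := by
  have hmem : ∀ n, (g s)^[n] P ∈ T := by
    intro n
    induction n with
    | zero => exact hP
    | succ n ih => rw [Function.iterate_succ_apply']; exact hT _ ih
  have hinj : Function.Injective (g s) := by
    intro A B h
    have h1 : A.2 = B.2 := congrArg Prod.fst h
    have h2 : s A.2 - A.1 = s B.2 - B.1 := congrArg Prod.snd h
    rw [h1] at h2
    exact Prod.ext (by linarith) h1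
  obtain ⟨a, b, hab, heq⟩ := Finite.exists_ne_map_eq_of_infinite
    (fun n : ℕ => (⟨(g s)^[n] P, hmem n⟩ : T))
  have heq' : (g s)^[a] P = (g s)^[b] P := congrArg Subtype.val heq
  rcases Nat.lt_or_gt_of_ne hab with hlt | hlt
  · refine ⟨b - a, by omega, ?_⟩
    have e : b = a + (b - a) := by omega
    rw [e, Function.iterate_add_apply] at heq'
    exact ((hinj.iterate a) heq').symm
  · refine ⟨a - b, by omega, ?_⟩
    have e : a = b + (a - b) := by omega
    rw [e, Function.iterate_add_apply] at heq'
    exact (hinj.iterate b) heq'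

/-- The invariant set. -/
noncomputable def TS (M : ℕ) : Finset (ℤ × ℤ) :=
  (Finset.Icc (0 : ℤ) M ×ˢ Finset.Icc (0 : ℤ) M) \
    (if M % 2 = 0 then {(0, 0), ((M : ℤ), (M : ℤ))}
      else {(1, 0), (0, 1), ((M : ℤ) - 1, 0), (0, (M : ℤ) - 1)})

lemma TS_card (M : ℕ) (hM : 3 ≤ M) :
    (TS M).card + (if M % 2 = 0 then 2 else 4) = (M + 1) ^ 2 := by
  have hbox : (Finset.Icc (0 : ℤ) M ×ˢ Finset.Icc (0 : ℤ) M).card = (M + 1) ^ 2 := by
    rw [Finset.card_product, Int.card_Icc, sq]
    have : ((M : ℤ) + 1 - 0).toNat = M + 1 := by omega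
    rw [this]
  rw [TS]
  split_ifs with h
  · rw [Finset.card_sdiff_of_subset, hbox]
    · have hc : ({((0 : ℤ), (0 : ℤ)), ((M : ℤ), (M : ℤ))} : Finset (ℤ × ℤ)).card = 2 := by
        rw [Finset.card_pair]
        intro h1
        have := congrArg Prod.fst h1
        simp only at this
        omega
      rw [hc]
      have : 4 ≤ (M + 1) ^ 2 := by nlinarith
      omega
    · intro P hP
      simp only [Finset.mem_insert, Finset.mem_singleton] at hP
      simp only [Finset.mem_product, Finset.mem_Icc]
      rcases hP with rfl | rfl <;> simp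
  · rw [Finset.card_sdiff_of_subset, hbox]
    · have hc : ({((1 : ℤ), (0 : ℤ)), (0, 1), ((M : ℤ) - 1, 0), (0, (M : ℤ) - 1)} :
          Finset (ℤ × ℤ)).card = 4 := by
        rw [Finset.card_insert_of_notMem, Finset.card_insert_of_notMem, Finset.card_pair]
        · intro h1
          have := congrArg Prod.fst h1
          simp only at this
          omega
        · simp only [Finset.mem_insert, Finset.mem_singleton, Prod.mk.injEq]
          omega
        · simp only [Finset.mem_insert, Finset.mem_singleton, Prod.mk.injEq]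
          omega
      rw [hc]
      have : 4 ≤ (M + 1) ^ 2 := by nlinarith
      omega
    · intro P hP
      simp only [Finset.mem_insert, Finset.mem_singleton] at hP
      simp only [Finset.mem_product, Finset.mem_Icc]
      rcases hP with rfl | rfl | rfl | rfl <;> simp <;> omega

lemma TS_invariant (M : ℕ) (hM : 3 ≤ M) (P : ℤ × ℤ) (hP : P ∈ TS M) :
    g (sv M (if M % 2 = 0 then 0 else 1)) P ∈ TS M := by
  obtain ⟨x, y⟩ := P
  rw [TS] at hP ⊢
  by_cases h : M % 2 = 0
  · have hpow : ((-1 : ℤ)) ^ (M - 1) = -1 := by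
      apply Odd.neg_one_pow
      rw [Nat.odd_iff]
      omega
    simp only [if_pos h, Finset.mem_sdiff, Finset.mem_product, Finset.mem_Icc, Finset.mem_insert,
      Finset.mem_singleton, Prod.mk.injEq, g, sv, hpow] at hP ⊢
    push_cast
    split_ifs <;> omega
  · have hpow : ((-1 : ℤ)) ^ (M - 1) = 1 := by
      apply Even.neg_one_pow
      rw [Nat.even_iff]
      omega
    simp only [if_neg h, Finset.mem_sdiff, Finset.mem_product, Finset.mem_Icc, Finset.mem_insert,
      Finset.mem_singleton, Prod.mk.injEq, g, sv, hpow] at hP ⊢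
    push_cast
    split_ifs <;> omega

/-- **Theorem.** For every `d ≥ 2` there are a polynomial `F ∈ ℚ[y]` of degree `d` and a set `T` of
`(d + 2) ^ 2 - 4` (`d` even) or `(d + 2) ^ 2 - 2` (`d` odd) integral points with coordinates between
`0` and `d + 1` such that, over every field `K` of characteristic zero, all points of `T` are periodic
for the area preserving Hénon map `f(x, y) = (y, F(y) - x)`. -/
theorem result (d : ℕ) (hd : 2 ≤ d) :
    ∃ (F : ℚ[X]) (T : Finset (ℤ × ℤ)), F.natDegree = d ∧
      T.card + (if Even d then 4 else 2) = (d + 2) ^ 2 ∧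
      (∀ P ∈ T, 0 ≤ P.1 ∧ P.1 ≤ d + 1 ∧ 0 ≤ P.2 ∧ P.2 ≤ d + 1) ∧
      ∀ (K : Type u) [Field K] [CharZero K], ∀ P ∈ T, ((P.1 : K), (P.2 : K)) ∈
        Function.periodicPts
          (fun P : K × K => (P.2, (F.map (algebraMap ℚ K)).eval P.2 - P.1)) := by
  set p : ℕ := if (d + 1) % 2 = 0 then 0 else 1 with hp
  have hpM : 2 * p < d + 1 := by
    rw [hp]
    split_ifs <;> omega
  obtain ⟨F, hFd, hF⟩ := exists_poly (d + 1) p hpM (by omega)
  have hbox : ∀ P ∈ TS (d + 1), Box (((d + 1 : ℕ) : ℤ) + 1) P := by
    intro P hP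
    rw [TS, Finset.mem_sdiff, Finset.mem_product, Finset.mem_Icc, Finset.mem_Icc] at hP
    simp only [Box]
    omega
  refine ⟨F, TS (d + 1), by simpa using hFd, ?_, ?_, ?_⟩
  · have h1 := TS_card (d + 1) (by omega)
    have h2 : (if Even d then 4 else 2) = (if (d + 1) % 2 = 0 then 2 else 4) := by
      by_cases h : Even d
      · rw [if_pos h, if_neg]
        rw [Nat.even_iff] at h
        omega
      · rw [if_neg h, if_pos]
        rw [Nat.even_iff] at h
        omega
    rw [h2, h1]
  · intro P hP
    have := hbox P hP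
    simp only [Box] at this
    push_cast at this
    omega
  · intro K _ _ P hP
    have hfun : (fun P : K × K => (P.2, (F.map (algebraMap ℚ K)).eval P.2 - P.1)) =
        henon (F.map (algebraMap ℚ K)) 1 := by
      funext P
      simp [henon]
    have hpt : ((P.1 : K), (P.2 : K)) = emb K P := rfl
    have hinv : ∀ Q ∈ TS (d + 1), g (sv (d + 1) p) Q ∈ TS (d + 1) :=
      fun Q hQ => TS_invariant (d + 1) (by omega) Q hQ
    obtain ⟨n, hn, hper⟩ := periodic_of_invariant (sv (d + 1) p) (TS (d + 1)) hinv P hP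
    have hmem : ∀ n, (g (sv (d + 1) p))^[n] P ∈ TS (d + 1) := by
      intro n
      induction n with
      | zero => exact hP
      | succ n ih => rw [Function.iterate_succ_apply']; exact hinv _ ih
    rw [hfun, hpt]
    refine Function.mk_mem_periodicPts hn ?_
    change (henon (F.map (algebraMap ℚ K)) 1)^[n] (emb K P) = emb K P
    rw [iterate_emb F (sv (d + 1) p) _ hF P n (fun i _ => hbox _ (hmem i)), hper]

end Pool.Agent.Results.MP_0e6b5f_nt.ManyPeriodicPoints
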