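import Pool.Agent.Q280.Hen.Snake

/-!
# Rational periodic points of Hénon maps with period of order `d ^ 2`

For every `d ≥ 8` there is an area preserving generalized Hénon map `f(x, y) = (y, F(y) - x)` with
`F ∈ ℚ[y]` monic of degree `d` and an integral point whose exact period is
`8 ((q - 1) (q - 2) + 1)`, `q = ⌊d / 4⌋`, hence at least `d ^ 2 / 2 - 9 d`.  (The trivial
construction, interpolation, gives rational cycles of length `d + 2`.)

Proof.  Write an integer of `[0, 4 q)` as `c + 4 w`, `0 ≤ c < 4`, and put `W = q - 1`.  A polynomial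
of degree `d` can take arbitrary values at these integers.  We prescribe `F(y) = 3 + 4 W` with small
changes by `0` or `± 4`.  With value `3 + 4 W` everywhere, `f` is a rotation of order four; the
remainders modulo `4` run through `0, 1, 3, 2`, and `f ^ 4` changes the quotients `(U, V)` of the two
consecutive coordinates with remainders `0` and `1` only by the small changes: the change at
`y = 1 + 4 V` is `∓ 4`, for `V` even and odd, so that `U` increases in the rows with even `V`
and decreases in the others; the change at `y = 4 U` is `4` if `U` is `0` or `W` and `0` otherwise, so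
that `V` increases by one at both ends of a row.  So the orbit runs like a snake through the rows
`V = 1, 2, ..., W - 1`.  At the two ends the value of `F` at the fresh point `y` (`y = 1` and
`y = 4 W + 1`) is chosen to be `2 x`, so that `f(x, y) = (y, x)`, and by time reversal the orbit
returns.
-/

set_option autoImplicit false

open Polynomial Pool.Agent.Q280.Hen

namespace Pool.Agent.Results.MP_0e6b5f_nt.QuadraticPeriods

universe u

lemma g_injective (s : ℤ → ℤ) : Function.Injective (g s) := by
  intro P Q h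
  have h1 : P.2 = Q.2 := congrArg Prod.fst h
  have h2 : s P.2 - P.1 = s Q.2 - Q.1 := congrArg Prod.snd h
  rw [h1] at h2
  exact Prod.ext (by linarith) h1

/-- The model: half of the period, and the properties of the orbit. -/
lemma model (w : ℕ) : ∃ N : ℕ, N = 4 * ((w + 1) * w + 1) ∧
    (g (sv ((w : ℤ) + 1)))^[2 * N] (3, 1) = (3, 1) ∧
    (∀ i < 2 * N, Box (4 * ((w : ℤ) + 1) + 4) ((g (sv ((w : ℤ) + 1)))^[i] (3, 1))) ∧
    (∀ i, 0 < i → i ≤ N → (g (sv ((w : ℤ) + 1)))^[i] (3, 1) ≠ (3, 1)) := by
  set W : ℤ := (w : ℤ) + 1 with hW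
  set N : ℕ := 4 * ((w + 1) * w + 1) with hN
  have hb : Box (4 * W + 4) ((3 : ℤ), (1 : ℤ)) := by
    simp only [Box]
    omega
  have h0 : g (sv W) (3, 1) = (1, 3) := by
    simp [g, sv]
  have h1 := half w
  rw [← hW] at h1
  have hNs : N = (3 + 4 * ((w + 1) * w)) + 1 := by rw [hN]; ring
  have hstep : ∀ i, (g (sv W))^[i + 1] (3, 1) = (g (sv W))^[i] (1, 3) := by
    intro i
    rw [Function.iterate_succ_apply, h0]
  have hgood : ∀ i, 0 < i → i ≤ N → Good W ((g (sv W))^[i] (3, 1)) := by
    intro i hi hiN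
    obtain ⟨k, rfl⟩ : ∃ k, i = k + 1 := ⟨i - 1, by omega⟩
    rw [hstep]
    exact h1.2 k (by omega)
  have hbox : ∀ i, i ≤ N → Box (4 * W + 4) ((g (sv W))^[i] (3, 1)) := by
    intro i hiN
    rcases Nat.eq_zero_or_pos i with rfl | hi
    · exact hb
    · exact (hgood i hi hiN).1
  have hend : (g (sv W))^[N] (3, 1) = st W W 0 := by
    rw [hNs, hstep]
    exact h1.1
  have hrefl : g (sv W) ((g (sv W))^[N] (3, 1)) = ((g (sv W))^[N] (3, 1)).swap := by
    rw [hend]
    have hw1 : 1 ≤ W := by omega
    rcases Int.emod_two_eq_zero_or_one W with h | h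
    · have e : st W W 0 = (0, 4 * W + 1) := by
        have : W % 2 ≠ 1 := by omega
        simp [st, if_neg this]
      rw [e]
      have e2 : sv W (4 * W + 1) = 0 := by
        simp only [sv]
        split_ifs <;> omega
      simp [g, Prod.swap, e2]
    · have e : st W W 0 = (4 * W, 4 * W + 1) := by
        simp [st, if_pos h]
      rw [e]
      have e2 : sv W (4 * W + 1) = 8 * W := by
        simp only [sv]
        split_ifs <;> omega
      simp only [g, Prod.swap, e2]
      ext <;> simp <;> ring
  have hback : ∀ k ≤ N, (g (sv W))^[k] ((g (sv W))^[N] (3, 1)).swap =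
      ((g (sv W))^[N - k] (3, 1)).swap := by
    intro k hk
    have e : (g (sv W))^[N] (3, 1) = (g (sv W))^[k] ((g (sv W))^[N - k] (3, 1)) := by
      rw [← Function.iterate_add_apply]
      congr 2
      omega
    rw [e]
    exact iterate_swap _ _ _
  refine ⟨N, rfl, ?_, ?_, ?_⟩
  · apply g_injective (sv W)
    have h2 : g (sv W) ((g (sv W))^[2 * N] (3, 1)) =
        (g (sv W))^[N] (g (sv W) ((g (sv W))^[N] (3, 1))) := by
      rw [← Function.iterate_succ_apply' (g (sv W)) (2 * N),
        ← Function.iterate_succ_apply' (g (sv W)) N, ← Function.iterate_add_apply]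
      have e : (2 * N).succ = N + N.succ := by rw [Nat.succ_eq_add_one, Nat.succ_eq_add_one]; ring
      rw [e]
    rw [h2, hrefl, hback N le_rfl, h0]
    simp [Prod.swap]
  · intro i hi
    rcases Nat.lt_or_ge N i with h | h
    · obtain ⟨k, rfl⟩ : ∃ k, i = k + 1 + N := ⟨i - (N + 1), by omega⟩
      rw [Function.iterate_add_apply, Function.iterate_succ_apply, hrefl, hback k (by omega)]
      have := hbox (N - k) (by omega)
      simp only [Box, Prod.fst_swap, Prod.snd_swap] at this ⊢
      tauto
    · exact hbox i h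
  · intro i hi hiN h
    have := (hgood i hi hiN).2
    rw [h] at this
    exact this rfl

/-- **Theorem.** For every `d ≥ 8` there is a polynomial `F ∈ ℚ[y]` of degree `d` and an integral
point `(x, y)` such that, over every field `K` of characteristic zero, the exact period `p` of
`(x, y)` under the area preserving Hénon map `f(x, y) = (y, F(y) - x)` is
`8 ((q - 1) (q - 2) + 1)`, `q = ⌊d / 4⌋`; so `2 p ≥ d ^ 2 - 18 d`. -/
theorem result (d : ℕ) (hd : 8 ≤ d) :
    ∃ (F : ℚ[X]) (x y : ℤ), F.natDegree = d ∧ ∀ (K : Type u) [Field K] [CharZero K],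
      Function.minimalPeriod
          (fun P : K × K => (P.2, (F.map (algebraMap ℚ K)).eval P.2 - P.1)) ((x : K), (y : K)) =
        8 * ((d / 4 - 1) * (d / 4 - 2) + 1) ∧
      d ^ 2 ≤ 2 * Function.minimalPeriod
          (fun P : K × K => (P.2, (F.map (algebraMap ℚ K)).eval P.2 - P.1)) ((x : K), (y : K)) +
        18 * d := by
  obtain ⟨w, hw⟩ : ∃ w, d / 4 = w + 2 := ⟨d / 4 - 2, by omega⟩
  obtain ⟨N, hN, hper, hbox, hne⟩ := model w
  obtain ⟨F, -, hFd, hF⟩ := exists_monic (sv ((w : ℤ) + 1)) (4 * (w + 1) + 4) d (by omega)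
  refine ⟨F, 3, 1, hFd, ?_⟩
  intro K _ _
  have hF' : ∀ i : ℤ, 0 ≤ i → i < 4 * ((w : ℤ) + 1) + 4 →
      F.eval (i : ℚ) = ((sv ((w : ℤ) + 1) i : ℤ) : ℚ) := by
    intro i h1 h2
    exact hF i h1 (by push_cast; exact h2)
  have hfun : (fun P : K × K => (P.2, (F.map (algebraMap ℚ K)).eval P.2 - P.1)) =
      henon (F.map (algebraMap ℚ K)) 1 := by
    funext P
    simp [henon]
  have hpt : (((3 : ℤ) : K), ((1 : ℤ) : K)) = emb K (3, 1) := rfl
  have hit : ∀ n ≤ 2 * N, (henon (F.map (algebraMap ℚ K)) 1)^[n] (emb K (3, 1)) =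
      emb K ((g (sv ((w : ℤ) + 1)))^[n] (3, 1)) := by
    intro n hn
    exact iterate_emb F _ _ hF' _ n (fun i hi => hbox i (by omega))
  have hN0 : 0 < N := by rw [hN]; positivity
  have hp : Function.IsPeriodicPt (henon (F.map (algebraMap ℚ K)) 1) (2 * N) (emb K (3, 1)) := by
    change (henon (F.map (algebraMap ℚ K)) 1)^[2 * N] (emb K (3, 1)) = emb K (3, 1)
    rw [hit _ le_rfl, hper]
  have key : Function.minimalPeriod (henon (F.map (algebraMap ℚ K)) 1) (emb K (3, 1)) = 2 * N := by
    set p := Function.minimalPeriod (henon (F.map (algebraMap ℚ K)) 1) (emb K (3, 1)) with hpdef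
    have hdvd : p ∣ 2 * N := hp.minimalPeriod_dvd
    have hp0 : 0 < p := hp.minimalPeriod_pos (by omega)
    by_contra hcon
    obtain ⟨k, hk⟩ := hdvd
    have hk2 : 2 ≤ k := by
      rcases Nat.lt_or_ge k 2 with h | h
      · interval_cases k
        · omega
        · exact absurd (by rw [hk, mul_one]) hcon
      · exact h
    have hpN : p ≤ N := by nlinarith
    have h1 := Function.isPeriodicPt_minimalPeriod (henon (F.map (algebraMap ℚ K)) 1)
      (emb K (3, 1))
    rw [← hpdef] at h1
    have h2 : (henon (F.map (algebraMap ℚ K)) 1)^[p] (emb K (3, 1)) = emb K (3, 1) := h1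
    rw [hit p (by omega)] at h2
    exact hne p hp0 hpN (emb_injective K h2)
  have hval : 2 * N = 8 * ((d / 4 - 1) * (d / 4 - 2) + 1) := by
    rw [hN, hw]
    have e1 : w + 2 - 1 = w + 1 := by omega
    have e2 : w + 2 - 2 = w := by omega
    rw [e1, e2]
    ring
  rw [hfun, hpt, key]
  refine ⟨hval, ?_⟩
  rw [hN]
  have hd2 : d ≤ 4 * w + 11 := by omega
  have hd3 : 4 * w + 8 ≤ d := by omega
  nlinarith [mul_le_mul hd2 hd2 (Nat.zero_le _) (Nat.zero_le _)]

end Pool.Agent.Results.MP_0e6b5f_nt.QuadraticPeriods
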