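import Pool.Agent.Q183.UD.HenFix

/-!
# Uniform boundedness of recurrent orbits of generalized Henon maps

There are functions `M ≥ 1` and `C` of `(R, d)` which depend only on the number `s` of maps and on
the bound `D` for their degrees, such that the following holds for all fields `K` of characteristic
zero and all generalized Henon maps `f k : (x, y) ↦ (y, F k y - δ k x)` over `K` of degrees between
`2` and `D`.

(a) Let `P 0, ..., P (l - 1)` be a finite sequence, of any length `l`, of points of the plane over
`K` such that each point is the image of the preceding one under one of the maps. If the points have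
homogeneous coordinates which satisfy linear recurrences of order at most `R` with polynomials of
degree at most `d` in the index as coefficients, then `P (t + M) = P t` for `C ≤ t ≤ l - M - C`, and
at most `M + 2 C` of the points are different.

(b) If `δ k ≠ 0` and the first `l ≥ M + 2 C` points of the orbit of `Q` under `f k` are such a
sequence, then `Q` is periodic: `f k ^ M (Q) = Q`.

(c) If `δ k ≠ 0`, then there are at most `D ^ M` points `Q` of the plane over `K` as in (b).
-/

set_option autoImplicit false

namespace Pool.Agent.Results.MP_0e6b5f_nt.RecurrentHenon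

open Pool.Agent.Q183.UD Pool.Agent.Q183.UH

theorem result (s D : ℕ) : ∃ M C : ℕ → ℕ → ℕ, (∀ R d, 0 < M R d) ∧
    ∀ (K : Type) [Field K] [CharZero K] (F : Fin s → Polynomial K) (δ : Fin s → K),
      (∀ k, 2 ≤ (F k).natDegree ∧ (F k).natDegree ≤ D) →
      (∀ (R d l : ℕ) (P : ℕ → K × K), (∀ t, t + 1 < l → ∃ k, P (t + 1) = henon (F k) (δ k) (P t)) →
        RecurrentPlane R d l P →
        (∀ t, C R d ≤ t → t + M R d + C R d ≤ l → P (t + M R d) = P t) ∧
        (P '' {t | t < l}).encard ≤ (M R d + 2 * C R d : ℕ)) ∧
      (∀ (R d l : ℕ) (k : Fin s) (Q : K × K), δ k ≠ 0 → M R d + 2 * C R d ≤ l →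
        RecurrentPlane R d l (fun t => (henon (F k) (δ k))^[t] Q) →
        (henon (F k) (δ k))^[M R d] Q = Q) ∧
      ∀ (R d : ℕ) (k : Fin s), δ k ≠ 0 →
        {Q : K × K | ∃ l, M R d + 2 * C R d ≤ l ∧
          RecurrentPlane R d l (fun t => (henon (F k) (δ k))^[t] Q)}.encard ≤ (D ^ M R d : ℕ) := by
  classical
  obtain ⟨M, C, hM, h⟩ := hen_points s D
  refine ⟨M, C, hM, fun K _ _ F δ hF => ?_⟩
  have hb : ∀ (R d l : ℕ) (k : Fin s) (Q : K × K), δ k ≠ 0 → M R d + 2 * C R d ≤ l →
      RecurrentPlane R d l (fun t => (henon (F k) (δ k))^[t] Q) →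
      (henon (F k) (δ k))^[M R d] Q = Q := by
    intro R d l k Q hδ hl hP
    have h1 := h K F δ hF R d l (fun t => (henon (F k) (δ k))^[t] Q) (fun t _ => ⟨k, by
      simp only [Function.iterate_succ_apply']⟩) hP (C R d) le_rfl (by omega)
    rw [Function.iterate_add_apply] at h1
    exact (henon_injective (F k) hδ).iterate (C R d) h1
  refine ⟨fun R d l P hS hP => ⟨h K F δ hF R d l P hS hP, ?_⟩, hb, fun R d k hδ => ?_⟩
  · have h4 := fin_points_le (Z := fun _ => False) (hM R d) fun t ht1 ht2 =>
      Or.inl (h K F δ hF R d l P hS hP t ht1 ht2)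
    simpa using h4
  · refine (Set.encard_le_encard ?_).trans (hen_fixed (hM R d) (F k) (δ k) (hF k))
    rintro Q ⟨l, hl, hP⟩
    exact hb R d l k Q hδ hl hP

end Pool.Agent.Results.MP_0e6b5f_nt.RecurrentHenon
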